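import Pool.Agent.Lib.lead.CXBase

/-!
# The unweighted red-blue s-t cut problem in undirected simple graphs is NP-complete
-/

set_option autoImplicit false

namespace Pool.Agent.Results.MP_ad21dd_lc.RedBlueCutNPComplete

open Pool.Agent.Lib.CX

/-- An input: the number of vertices (in unary; the vertices are `0, 1, …`), the list of the red
edges, the list of the blue edges, the two vertices `s` and `t`, and the two bounds `r` and `b`. -/
abbrev Inst := List Unit × (List (ℕ × ℕ) × List (ℕ × ℕ)) × (ℕ × ℕ) × (ℕ × ℕ)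

/-- the number of vertices -/
abbrev Inst.n (a : Inst) : ℕ := a.1.length
/-- the red edges -/
abbrev Inst.red (a : Inst) : List (ℕ × ℕ) := a.2.1.1
/-- the blue edges -/
abbrev Inst.blue (a : Inst) : List (ℕ × ℕ) := a.2.1.2
/-- the source -/
abbrev Inst.s (a : Inst) : ℕ := a.2.2.1.1
/-- the sink -/
abbrev Inst.t (a : Inst) : ℕ := a.2.2.1.2
/-- the bound for the red edges -/
abbrev Inst.r (a : Inst) : ℕ := a.2.2.2.1
/-- the bound for the blue edges -/
abbrev Inst.b (a : Inst) : ℕ := a.2.2.2.2

/-- The input describes a simple graph on the vertices `0, …, n - 1` whose edges are coloured red or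
blue (an edge is written as a pair `(u, v)` with `u < v`, and no edge is listed twice, in one colour or
in both colours), and two different vertices `s`, `t`. -/
def Valid (a : Inst) : Prop :=
  (∀ e ∈ a.red ++ a.blue, e.1 < e.2 ∧ e.2 < a.n) ∧ (a.red ++ a.blue).Nodup ∧
    a.s < a.n ∧ a.t < a.n ∧ a.s ≠ a.t

/-- the number of the listed edges with exactly one end in `X` -/
def cutSize (X : Finset ℕ) (E : List (ℕ × ℕ)) : ℕ :=
  (E.filter fun e => (decide (e.1 ∈ X)) != (decide (e.2 ∈ X))).length

/-- There is a set `X` of vertices with `s ∈ X` and `t ∉ X` such that the cut `δ(X)` has at most `r` red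
edges and at most `b` blue edges. -/
def HasCut (a : Inst) : Prop :=
  ∃ X : Finset ℕ, (∀ x ∈ X, x < a.n) ∧ a.s ∈ X ∧ a.t ∉ X ∧
    cutSize X a.red ≤ a.r ∧ cutSize X a.blue ≤ a.b

/-- the red edges of the reduction -/
def redE (N : ℕ) (es : List (ℕ × ℕ)) : List (ℕ × ℕ) :=
  es.zipIdx.flatMap fun p => [p.1, (N, N + 2 + 2 * p.2), (p.1.1, N + 2 + 2 * p.2),
    (N, N + 2 + (2 * p.2 + 1)), (p.1.2, N + 2 + (2 * p.2 + 1))]

/-- the blue edges of the reduction -/
def blueE (N : ℕ) : List (ℕ × ℕ) := (List.range N).map fun v => (v, N + 1)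

/-- the reduction from clique -/
def red (a : List Unit × List (ℕ × ℕ) × ℕ) : Inst :=
  if a.2.2 ≤ a.1.length ∧ a.2.2 * (a.2.2 - 1) ≤ 2 * a.2.1.length then
    (a.1 ++ [(), ()] ++ List.replicate (2 * a.2.1.length) (), (redE a.1.length a.2.1, blueE a.1.length),
      (a.1.length, a.1.length + 1), (2 * a.2.1.length - a.2.2 * (a.2.2 - 1), a.2.2))
  else ([(), ()], ([(0, 1)], []), (0, 1), (0, 0))

theorem red_pt : PT red := by
  unfold red redE blueE
  fun_prop

theorem cutSize_eq (X : Finset ℕ) (E : List (ℕ × ℕ)) :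
    cutSize X E = E.countP fun e => (decide (e.1 ∈ X)) != (decide (e.2 ∈ X)) := by
  rw [cutSize, List.countP_eq_length_filter]

theorem zip_inj {es : List (ℕ × ℕ)} {p q : (ℕ × ℕ) × ℕ} (hn : es.Nodup) (hp : p ∈ es.zipIdx)
    (hq : q ∈ es.zipIdx) (h : p.1 = q.1 ∨ p.2 = q.2) : p = q := by
  obtain ⟨e, i⟩ := p
  obtain ⟨f, j⟩ := q
  rw [List.mk_mem_zipIdx_iff_getElem?] at hp hq
  rcases h with h | h
  · dsimp only at h
    subst h
    obtain ⟨hi, hi'⟩ := List.getElem?_eq_some_iff.1 hp
    obtain ⟨hj, hj'⟩ := List.getElem?_eq_some_iff.1 hq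
    have := (hn.getElem_inj_iff (hi := hi) (hj := hj)).1 (hi'.trans hj'.symm)
    rw [this]
  · dsimp only at h
    subst h
    rw [hp] at hq
    simpa using hq

theorem redE_mem {N : ℕ} {es : List (ℕ × ℕ)} {x : ℕ × ℕ} (hx : x ∈ redE N es) :
    ∃ p ∈ es.zipIdx, x = p.1 ∨ x = (N, N + 2 + 2 * p.2) ∨ x = (p.1.1, N + 2 + 2 * p.2) ∨
      x = (N, N + 2 + (2 * p.2 + 1)) ∨ x = (p.1.2, N + 2 + (2 * p.2 + 1)) := by
  simpa [redE] using hx

theorem valid_red {N : List Unit} {es : List (ℕ × ℕ)} {k : ℕ}
    (h1 : ∀ e ∈ es, e.1 < e.2 ∧ e.2 < N.length) (h2 : es.Nodup) : Valid (red (N, es, k)) := by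
  unfold red
  split
  swap
  · simp [Valid, Inst.n, Inst.s, Inst.t, Inst.red, Inst.blue]
  have hl : (N ++ [(), ()] ++ List.replicate (2 * es.length) ()).length = N.length + 2 + 2 * es.length := by
    simp
    omega
  have hidx : ∀ p ∈ es.zipIdx, p.1.1 < p.1.2 ∧ p.1.2 < N.length ∧ p.2 < es.length := by
    rintro ⟨e, j⟩ hp
    have h3 := List.mk_mem_zipIdx_iff_getElem?.1 hp
    obtain ⟨h4, h5⟩ := List.getElem?_eq_some_iff.1 h3
    have := h1 e (h5 ▸ List.getElem_mem h4)
    exact ⟨this.1, this.2, h4⟩
  refine ⟨?_, ?_, ?_, ?_, ?_⟩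
  · intro e he
    simp only [Inst.n, Inst.red, Inst.blue, hl] at he ⊢
    rcases List.mem_append.1 he with he | he
    · obtain ⟨p, hp, h⟩ := redE_mem he
      have := hidx p hp
      rcases h with rfl | rfl | rfl | rfl | rfl <;> (try dsimp only) <;> omega
    · simp only [blueE, List.mem_map, List.mem_range] at he
      obtain ⟨v, hv, rfl⟩ := he
      dsimp only
      omega
  · simp only [Inst.red, Inst.blue]
    refine List.Nodup.append ?_ ?_ ?_
    · unfold redE
      rw [List.nodup_flatMap]
      constructor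
      · intro p hp
        have := hidx p hp
        simp [Prod.ext_iff]
        omega
      · have hz : es.zipIdx.Nodup := by
          refine List.Nodup.of_map Prod.fst ?_
          simpa using h2
        refine List.Pairwise.imp_of_mem ?_ hz
        intro p q hp hq hpq x hxp hxq
        have b1 := hidx p hp
        have b2 := hidx q hq
        have n1 : p.1 ≠ q.1 := fun h => hpq (zip_inj h2 hp hq (Or.inl h))
        have n2 : p.2 ≠ q.2 := fun h => hpq (zip_inj h2 hp hq (Or.inr h))
        simp only [List.mem_cons, List.not_mem_nil, or_false] at hxp hxq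
        rcases hxp with rfl | rfl | rfl | rfl | rfl <;> rcases hxq with h | h | h | h | h <;>
          first
          | exact n1 h
          | (rw [Prod.ext_iff] at h; dsimp only at h; omega)
    · exact List.nodup_range.map fun a b h => by simpa using h
    · intro e he hb
      obtain ⟨p, hp, h⟩ := redE_mem he
      have := hidx p hp
      simp only [blueE, List.mem_map, List.mem_range] at hb
      obtain ⟨v, hv, rfl⟩ := hb
      rcases h with h | h | h | h | h <;> rw [Prod.ext_iff] at h <;> dsimp only at h <;> omega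
  · simp only [Inst.n, Inst.s, hl]; omega
  · simp only [Inst.n, Inst.t, hl]; omega
  · simp [Inst.s, Inst.t]

/-- the number of pairs `x < y` of elements of `S` -/
theorem card_pairs (S : Finset ℕ) :
    2 * ((S ×ˢ S).filter fun p => p.1 < p.2).card = S.card * (S.card - 1) := by
  have h1 : S.offDiag.card = S.card * (S.card - 1) := by
    rw [Finset.offDiag_card, Nat.mul_sub, mul_one]
  have h2 : ((S ×ˢ S).filter fun p => p.2 < p.1).card = ((S ×ˢ S).filter fun p => p.1 < p.2).card := by
    refine Finset.card_bij' (fun p _ => (p.2, p.1)) (fun p _ => (p.2, p.1)) ?_ ?_ ?_ ?_ <;>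
      simp +contextual
  have h3 : S.offDiag = ((S ×ˢ S).filter fun p => p.1 < p.2) ∪ ((S ×ˢ S).filter fun p => p.2 < p.1) := by
    ext ⟨a, b⟩
    simp only [Finset.mem_offDiag, Finset.mem_union, Finset.mem_filter, Finset.mem_product]
    constructor
    · rintro ⟨h4, h5, h6⟩
      rcases lt_or_gt_of_ne h6 with h | h
      · exact Or.inl ⟨⟨h4, h5⟩, h⟩
      · exact Or.inr ⟨⟨h4, h5⟩, h⟩
    · rintro (⟨⟨h4, h5⟩, h⟩ | ⟨⟨h4, h5⟩, h⟩)
      · exact ⟨h4, h5, h.ne⟩
      · exact ⟨h4, h5, h.ne'⟩
  rw [← h1, h3, Finset.card_union_of_disjoint, h2, two_mul]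
  rw [Finset.disjoint_left]
  simp only [Finset.mem_filter, Finset.mem_product]
  rintro ⟨a, b⟩ ⟨-, h⟩ ⟨-, h'⟩
  exact lt_asymm h h'

/-- the number of the listed pairs inside `S` -/
def ins (S : Finset ℕ) (es : List (ℕ × ℕ)) : List (ℕ × ℕ) := es.filter fun e => decide (e.1 ∈ S ∧ e.2 ∈ S)

theorem ins_le {S : Finset ℕ} {es : List (ℕ × ℕ)} (h1 : ∀ e ∈ es, e.1 < e.2) :
    (ins S es).toFinset ⊆ (S ×ˢ S).filter fun p => p.1 < p.2 := by
  intro e he
  simp only [ins, List.mem_toFinset, List.mem_filter, decide_eq_true_eq] at he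
  simp only [Finset.mem_filter, Finset.mem_product]
  exact ⟨he.2, h1 e he.1⟩

theorem ins_card {S : Finset ℕ} {es : List (ℕ × ℕ)} (h2 : es.Nodup) :
    (ins S es).toFinset.card = (ins S es).length :=
  List.toFinset_card_of_nodup (h2.filter _)

/-- the red edges of the cut -/
theorem red_count (X : Finset ℕ) (N : ℕ) (es : List (ℕ × ℕ)) :
    cutSize X (redE N es) = (es.zipIdx.map fun p =>
      [p.1, (N, N + 2 + 2 * p.2), (p.1.1, N + 2 + 2 * p.2), (N, N + 2 + (2 * p.2 + 1)),
        (p.1.2, N + 2 + (2 * p.2 + 1))].countP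
          fun e => (decide (e.1 ∈ X)) != (decide (e.2 ∈ X))).sum := by
  rw [cutSize_eq, redE, List.countP_flatMap]
  rfl

theorem sum_two (S : Finset ℕ) (es : List (ℕ × ℕ)) :
    (es.zipIdx.map fun p => 2 - 2 * (if p.1.1 ∈ S ∧ p.1.2 ∈ S then 1 else 0)).sum +
      2 * (ins S es).length = 2 * es.length := by
  have h : (es.zipIdx.map fun p => 2 - 2 * (if p.1.1 ∈ S ∧ p.1.2 ∈ S then 1 else 0)) =
      es.map fun e => 2 - 2 * (if e.1 ∈ S ∧ e.2 ∈ S then 1 else 0) := by
    conv_rhs => rw [← List.zipIdx_map_fst 0 es, List.map_map]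
    rfl
  rw [h]
  induction es with
  | nil => simp [ins]
  | cons e es ih =>
    have ih' := ih (by
      conv_rhs => rw [← List.zipIdx_map_fst 0 es, List.map_map]
      rfl)
    by_cases he : e.1 ∈ S ∧ e.2 ∈ S
    · simp only [List.map_cons, List.sum_cons, he, and_self, if_true, ins, List.filter_cons,
        decide_true, List.length_cons] at ih' ⊢
      omega
    · simp only [List.map_cons, List.sum_cons, he, if_false, ins, List.filter_cons,
        decide_false, List.length_cons, Bool.false_eq_true] at ih' ⊢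
      omega

theorem correct {N : List Unit} {es : List (ℕ × ℕ)} {k : ℕ}
    (h1 : ∀ e ∈ es, e.1 < e.2 ∧ e.2 < N.length) (h2 : es.Nodup) :
    (∃ S : Finset ℕ, (∀ x ∈ S, x < N.length) ∧ (∀ x ∈ S, ∀ y ∈ S, x < y → (x, y) ∈ es) ∧ S.card = k) ↔
      HasCut (red (N, es, k)) := by
  unfold red
  split
  swap
  · rename_i hk
    dsimp only at hk
    refine iff_of_false ?_ ?_
    · rintro ⟨S, h3, h4, rfl⟩
      refine hk ⟨?_, ?_⟩
      · have := Finset.card_le_card (s := S) (t := Finset.range N.length)
          (fun x hx => Finset.mem_range.2 (h3 x hx))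
        simpa using this
      · rw [← card_pairs S, ← List.toFinset_card_of_nodup h2]
        refine Nat.mul_le_mul_left _ (Finset.card_le_card ?_)
        rintro ⟨x, y⟩ hx
        simp only [Finset.mem_filter, Finset.mem_product] at hx
        exact List.mem_toFinset.2 (h4 x hx.1.1 y hx.1.2 hx.2)
    · rintro ⟨X, -, h3, h4, h5, -⟩
      simp only [Inst.s, Inst.t, Inst.red, Inst.r] at h3 h4 h5
      simp [cutSize, h3, h4] at h5
  rename_i hk
  dsimp only at hk
  obtain ⟨hk1, hk2⟩ := hk
  have hl : (N ++ [(), ()] ++ List.replicate (2 * es.length) ()).length = N.length + 2 + 2 * es.length := by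
    simp
    omega
  have hidx : ∀ p ∈ es.zipIdx, p.1.1 < p.1.2 ∧ p.1.2 < N.length ∧ p.2 < es.length := by
    rintro ⟨e, j⟩ hp
    have h3 := List.mk_mem_zipIdx_iff_getElem?.1 hp
    obtain ⟨h4, h5⟩ := List.getElem?_eq_some_iff.1 h3
    have := h1 e (h5 ▸ List.getElem_mem h4)
    exact ⟨this.1, this.2, h4⟩
  simp only [HasCut, Inst.n, Inst.red, Inst.blue, Inst.s, Inst.t, Inst.r, Inst.b, hl]
  constructor
  · rintro ⟨S, h3, h4, rfl⟩
    refine ⟨(Finset.range (N.length + 2 + 2 * es.length)).filter
      fun x => x ∈ S ∨ x = N.length ∨ N.length + 2 ≤ x, ?_, ?_, ?_, ?_, ?_⟩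
    · intro x hx
      simpa using (Finset.mem_filter.1 hx).1
    · simp
      omega
    · simp only [Finset.mem_filter, Finset.mem_range, not_and, not_or]
      intro _
      refine ⟨fun h => ?_, by omega, by omega⟩
      have := h3 _ h
      omega
    · set X := (Finset.range (N.length + 2 + 2 * es.length)).filter
        fun x => x ∈ S ∨ x = N.length ∨ N.length + 2 ≤ x with hX
      have hXS : ∀ v < N.length, v ∈ X ↔ v ∈ S := by
        intro v hv
        simp only [hX, Finset.mem_filter, Finset.mem_range]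
        constructor
        · rintro ⟨-, h | h | h⟩
          · exact h
          · omega
          · omega
        · exact fun h => ⟨by omega, Or.inl h⟩
      have hXN : N.length ∈ X := by
        simp only [hX, Finset.mem_filter, Finset.mem_range]
        exact ⟨by omega, Or.inr (Or.inl trivial)⟩
      have hXa : ∀ j, j < 2 * es.length → N.length + 2 + j ∈ X := by
        intro j hj
        simp only [hX, Finset.mem_filter, Finset.mem_range]
        exact ⟨by omega, Or.inr (Or.inr (by omega))⟩
      have e1 : cutSize X (redE N.length es) =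
          (es.zipIdx.map fun p => 2 - 2 * (if p.1.1 ∈ S ∧ p.1.2 ∈ S then 1 else 0)).sum := by
        rw [red_count]
        congr 1
        refine List.map_congr_left fun p hp => ?_
        obtain ⟨b1, b2, b3⟩ := hidx p hp
        have c1 := hXS p.1.1 (by omega)
        have c2 := hXS p.1.2 b2
        have c3 := hXa (2 * p.2) (by omega)
        have c4 := hXa (2 * p.2 + 1) (by omega)
        simp only [List.countP_cons, List.countP_nil, hXN, c1, c2, c3, c4]
        by_cases m1 : p.1.1 ∈ S <;> by_cases m2 : p.1.2 ∈ S <;> simp [m1, m2]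
      have e2 := sum_two S es
      have e3 : (ins S es).length = ((S ×ˢ S).filter fun p => p.1 < p.2).card := by
        rw [← ins_card h2]
        congr 1
        refine Finset.Subset.antisymm (ins_le fun e he => (h1 e he).1) ?_
        rintro ⟨x, y⟩ hx
        simp only [Finset.mem_filter, Finset.mem_product] at hx
        simp only [ins, List.mem_toFinset, List.mem_filter, decide_eq_true_eq]
        exact ⟨h4 x hx.1.1 y hx.1.2 hx.2, hx.1⟩
      have e4 := card_pairs S
      omega
    · rw [cutSize_eq, blueE, List.countP_map]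
      have : (List.range N.length).countP ((fun e : ℕ × ℕ => (decide (e.1 ∈ (Finset.range
          (N.length + 2 + 2 * es.length)).filter fun x => x ∈ S ∨ x = N.length ∨ N.length + 2 ≤ x)) !=
          (decide (e.2 ∈ (Finset.range (N.length + 2 + 2 * es.length)).filter
            fun x => x ∈ S ∨ x = N.length ∨ N.length + 2 ≤ x))) ∘ fun v => (v, N.length + 1)) =
          (List.range N.length).countP fun v => decide (v ∈ S) := by
        refine List.countP_congr fun v hv => ?_
        have hv' := List.mem_range.1 hv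
        have c1 : N.length + 1 ∉ S := fun h => by have := h3 _ h; omega
        have c2 : v ≠ N.length := by omega
        have c3 : ¬ N.length + 2 ≤ v := by omega
        have c4 : v < N.length + 2 + 2 * es.length := by omega
        simp [c1, c2, c4]
        omega
      rw [this, List.countP_eq_length_filter, ← List.toFinset_card_of_nodup (List.nodup_range.filter _)]
      refine Finset.card_le_card ?_
      intro v hv
      simpa using (List.mem_filter.1 (List.mem_toFinset.1 hv)).2
  · rintro ⟨X, -, hs, ht, hr, hb⟩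
    set S0 := (Finset.range N.length).filter fun v => v ∈ X with hS0
    have hc0 : S0.card ≤ k := by
      refine le_trans (le_of_eq ?_) hb
      rw [cutSize_eq, blueE, List.countP_map]
      have : (List.range N.length).countP ((fun e : ℕ × ℕ => (decide (e.1 ∈ X)) != (decide (e.2 ∈ X))) ∘
          fun v => (v, N.length + 1)) = (List.range N.length).countP fun v => decide (v ∈ X) := by
        refine List.countP_congr fun v hv => ?_
        simp [ht]
      rw [this, List.countP_eq_length_filter, ← List.toFinset_card_of_nodup (List.nodup_range.filter _)]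
      congr 1
      ext v
      simp [hS0]
    obtain ⟨S, hS1, hS2, hS3⟩ := Finset.exists_subsuperset_card_eq (s := S0) (t := Finset.range N.length)
      (Finset.filter_subset _ _) hc0 (by simpa using hk1)
    have e1 : (es.zipIdx.map fun p => 2 - 2 * (if p.1.1 ∈ S0 ∧ p.1.2 ∈ S0 then 1 else 0)).sum ≤
        cutSize X (redE N.length es) := by
      rw [red_count]
      refine List.sum_le_sum fun p hp => ?_
      obtain ⟨b1, b2, b3⟩ := hidx p hp
      have c1 : p.1.1 ∈ S0 ↔ p.1.1 ∈ X := by
        simp only [hS0, Finset.mem_filter, Finset.mem_range]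
        exact ⟨fun h => h.2, fun h => ⟨by omega, h⟩⟩
      have c2 : p.1.2 ∈ S0 ↔ p.1.2 ∈ X := by
        simp only [hS0, Finset.mem_filter, Finset.mem_range]
        exact ⟨fun h => h.2, fun h => ⟨by omega, h⟩⟩
      simp only [List.countP_cons, List.countP_nil, hs, c1, c2]
      by_cases m1 : p.1.1 ∈ X <;> by_cases m2 : p.1.2 ∈ X <;>
        by_cases m3 : N.length + 2 + 2 * p.2 ∈ X <;> by_cases m4 : N.length + 2 + (2 * p.2 + 1) ∈ X <;>
        simp [m1, m2, m3, m4]
    have e2 := sum_two S0 es
    have e4 := card_pairs S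
    have e5 : (ins S0 es).length ≤ (ins S es).length := by
      rw [← ins_card h2, ← ins_card h2]
      refine Finset.card_le_card fun e he => ?_
      simp only [ins, List.mem_toFinset, List.mem_filter, decide_eq_true_eq] at he ⊢
      exact ⟨he.1, hS1 he.2.1, hS1 he.2.2⟩
    have e6 : (ins S es).toFinset = (S ×ˢ S).filter fun p => p.1 < p.2 := by
      refine Finset.eq_of_subset_of_card_le (ins_le fun e he => (h1 e he).1) ?_
      rw [ins_card h2]
      rw [hS3] at e4
      omega
    refine ⟨S, fun x hx => Finset.mem_range.1 (hS2 hx), fun x hx y hy hxy => ?_, hS3⟩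
    have : (x, y) ∈ (ins S es).toFinset := by
      rw [e6]
      simp [hx, hy, hxy]
    exact (List.mem_filter.1 (List.mem_toFinset.1 this)).1


theorem np : InNP fun a : {a : Inst // Valid a} => HasCut a.1 := by
  refine InNP.of_cert' (fun (a : {a : Inst // Valid a}) (c : List ℕ) =>
    (∀ x ∈ c, x < a.1.1.length) ∧ a.1.2.2.1.1 ∈ c ∧ a.1.2.2.1.2 ∉ c ∧
      (a.1.2.1.1.countP fun e => (decide (e.1 ∈ c)) != (decide (e.2 ∈ c))) ≤ a.1.2.2.2.1 ∧
      (a.1.2.1.2.countP fun e => (decide (e.1 ∈ c)) != (decide (e.2 ∈ c))) ≤ a.1.2.2.2.2)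
    (fun a => a.1.1.length * (size a.1.1.length + 1) + 2) (by fun_prop) (by fun_prop) ?_ ?_
  · rintro ⟨a, ha⟩ c ⟨h1, h2, h3, h4, h5⟩
    refine ⟨c.toFinset, by simpa using h1, by simpa using h2, by simpa using h3, ?_, ?_⟩
    · rw [cutSize_eq]
      simpa using h4
    · rw [cutSize_eq]
      simpa using h5
  · rintro ⟨a, ha⟩ ⟨X, h1, h2, h3, h4, h5⟩
    refine ⟨X.toList, ?_, by simpa using h1, by simpa using h2, by simpa using h3, ?_, ?_⟩
    · refine (size_list_le (B := size a.1.length) fun x hx => ?_).trans ?_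
      · exact size_nat_mono (h1 x (Finset.mem_toList.1 hx)).le
      · have : X.toList.length ≤ a.1.length := by
          rw [Finset.length_toList]
          simpa using Finset.card_le_card (s := X) (t := Finset.range a.1.length)
            (fun x hx => Finset.mem_range.2 (h1 x hx))
        have := Nat.mul_le_mul_right (size a.1.length + 1) this
        dsimp only
        omega
    · rw [cutSize_eq] at h4
      simpa using h4
    · rw [cutSize_eq] at h5
      simpa using h5

/-- removing the junk from a graph -/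
def clean (a : List Unit × List (ℕ × ℕ) × ℕ) : List Unit × List (ℕ × ℕ) × ℕ :=
  (a.1, (a.2.1.filter fun e => decide (e.1 < e.2 ∧ e.2 < a.1.length)).dedup, a.2.2)

theorem clean_pt : PT clean := by
  unfold clean
  fun_prop

theorem clean_valid (a : List Unit × List (ℕ × ℕ) × ℕ) : Valid (red (clean a)) :=
  valid_red (by simp +contextual) (List.nodup_dedup _)

theorem hard : NPHard fun a : {a : Inst // Valid a} => HasCut a.1 := by
  refine NPHard.of_clique (fun a => (⟨red (clean a), clean_valid a⟩ : {a : Inst // Valid a}))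
    (PT.subtype (red_pt.comp clean_pt) _) fun n es k h1 h2 _ => ?_
  have : clean (n, es, k) = (n, es, k) := by
    rw [clean, List.filter_eq_self.2 (by simpa using fun a b h => h1 (a, b) h), h2.dedup]
  change _ ↔ HasCut (red (clean (n, es, k)))
  rw [correct h1 h2, this]

/-- The unweighted red-blue `s`-`t` cut problem in undirected simple graphs is NP-complete. -/
theorem result : NPComplete fun a : {a : Inst // Valid a} => HasCut a.1 := ⟨np, hard⟩

end Pool.Agent.Results.MP_ad21dd_lc.RedBlueCutNPComplete
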